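import Mathlib
import Pool.Agent.H73.G.R8.Y776.Cv.Sub
import Pool.Agent.H73.G.R8.Y776.Fam.Main

/-!
# Analytic curves in the Lie algebra of a product of elliptic curves and a torus
-/

set_option autoImplicit false

open Filter Topology Set
open scoped PeriodPair

noncomputable section

namespace Pool.Agent.Y776.Cv

open H667R3 Pool.Agent.W245.EB Pool.Agent.TH813.Ell Pool.Agent.Y685 Pool.Agent.Y685.H2
open Pool.Agent.Y776.Fam (TS TS_countable Gn countable_Gn exists_D countable_zeros IndC exists_cf
  exists_notMem exists_den)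

open Pool.Agent.TH813.Rel (DF MK rk_le_of_subset_cl subset_cl)
open Pool.Agent.Y776 (Tf lg ET)
open Pool.Agent.Y124 (LocInd)

variable {U : Set ℂ} {n s q : ℕ} {Λ : Fin q → PeriodPair} {ty : Fin n → Fin q}
  {u : Fin n → ℂ → ℂ} {l : Fin s → ℂ → ℂ}

/-- the rank grows when the field shrinks -/
theorem eRk_anti {F F' : IntermediateField ℚ ℂ} (h : F ≤ F') (S : Set ℂ) :
    (MK F').eRk S ≤ (MK F).eRk S := by
  obtain ⟨J, hJ⟩ := (MK F').exists_isBasis S (Set.subset_univ _)
  rw [← hJ.encard_eq_eRk]
  have h1 := hJ.indep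
  rw [AlgebraicIndependent.matroid_indep_iff] at h1
  refine Matroid.Indep.encard_le_eRk_of_subset ?_ hJ.subset
  rw [AlgebraicIndependent.matroid_indep_iff]
  let _ : Algebra F F' := (IntermediateField.inclusion h).toRingHom.toAlgebra
  have : IsScalarTower F F' ℂ := IsScalarTower.of_algebraMap_eq (fun _ => rfl)
  exact AlgebraicIndependent.restrictScalars (K := F') (algebraMap F F').injective h1

end Pool.Agent.Y776.Cv
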