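import Mathlib
import Pool.Agent.H73.G.R8.Y776.Cv.Fix

/-!
# Independent functions and substitution of an arbitrary analytic function
-/

set_option autoImplicit false

open Filter Topology Set NumberField MvPolynomial

noncomputable section

namespace Pool.Agent.Y776.Cv

open Pool.Agent.Y776.Fam (TS TS_countable exists_cf exists_notMem countable_zeros)
open Pool.Agent.TH813.Rel (DF MK)
open Pool.Agent.Y124 (LocInd)

variable {U V : Set ℂ}

/-- the functions satisfy no polynomial relation over the complex numbers -/
def FInd {ι : Type} (U : Set ℂ) (y : ι → ℂ → ℂ) : Prop :=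
  ∀ P : MvPolynomial ι ℂ, (∀ z ∈ U, eval (fun i => y i z) P = 0) → P = 0

end Pool.Agent.Y776.Cv
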